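import Mathlib
import Pool.Agent.N578.LB.Main
import Pool.Agent.Y156.L.Thms
import Pool.Agent.N220.ME.Final

/-!
# Beilinson's conjecture over finite fields: almost every point of the space of real Weil polynomials

Let `g i` be positive integers (`i` in a finite set `I`) and `n = ∑ g i`. For a prime power `q` a point `x` of `ℤ ^ n` gives the
polynomials `h_i = X ^ (g i) + ∑ x_(i,k) X ^ k` and `f_i = X ^ (g i) h_i(X + q / X)`; all Weil `q`-polynomials of degree `2 g i` are
of this form. `LatticeBoxes` (helper578) shows that few of the points in boxes do not have the property `BeilinsonForRankOver`.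
Here: for almost every real point `ξ` of `ℝ ^ n` ALL points `x` with `|x_(i,k) - q ^ ((g i - k) / 2) ξ_(i,k)| ≤ q ^ η` have the
property (`q ∤ tr(h_i) ^ 2`), for every prime `p` and `q = p ^ m` with `m` large, and for all but at most `C Q ^ β` of the prime
powers `q ≤ Q`, if `n η < 1 / 6` and `β > 5 / 6 + n η`. The null set does not depend on `E`, `r`, `η`, `p`, `β`. The proof is by
the lemma of Borel and Cantelli (`N220/ME`).
-/

set_option autoImplicit false

namespace Pool.Agent.Results.MP_b52861_ag.AlmostEveryPoint

open Polynomial MeasureTheory Pool.Agent.W484.TB Pool.Agent.N578.LB Pool.Agent.N220.ME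

open Pool.Agent.Y156.L (BeilinsonForRankOver)

/-- For positive integers `g i` and almost every point `ξ` of `ℝ ^ n`, `n = ∑ g i`, for all number fields `E` and all `r` smaller than
all the `g i`: the property `BeilinsonForRankOver E q r f` holds near `ξ` (`HoldsNear`). -/
theorem result {I : Type} [Fintype I] [DecidableEq I] (g : I → ℕ) :
    ∀ᵐ ξ : (Σ i, Fin (g i)) → ℝ, ∀ E : IntermediateField ℚ ℂ, FiniteDimensional ℚ E → ∀ r : ℕ, (∀ i, r < g i) →
      HoldsNear g (fun q f => BeilinsonForRankOver E q r f) ξ :=
  allFields g (fun E r q f => BeilinsonForRankOver E q r f) fun E hE r hr =>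
    inAllLattices (splitPrimes E) (dense_splitPrimes E) g (fun i => (Nat.zero_le r).trans_lt (hr i)) _
      fun _ hq x hx => Pool.Agent.Y156.L.beilinson_of_good g E hq.one_lt r hr x hx

end Pool.Agent.Results.MP_b52861_ag.AlmostEveryPoint
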