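import Mathlib
import Pool.Agent.N578.LB.Main
import Pool.Agent.Y156.L.Thms

/-!
# Beilinson's conjecture for higher Chow groups: exceptions are rare in every box of every lattice

Let `g i` (`i` in a finite set `I`) be positive integers, `r` an integer smaller than all the `g i` and `E` a number
field. Put `n = ∑ g i`. For a prime power `q` a point `x` of `ℤ ^ n` gives monic polynomials `h i` of degree `g i` and the
polynomials `f i = X ^ (g i) h i (X + q / X)`; all Weil `q`-polynomials of degree `2 g i` are of this form, and by Weil,
Honda and Tate they correspond to the isogeny classes of abelian varieties of dimension `g i` over the field with `q`
elements (up to multiplicities).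

The property (`BeilinsonForRankOver`): for all `s > 0`, `Q = q ^ s`, and all abelian varieties `A` over the field with `Q`
elements which are isogenous to products of powers of abelian varieties coming from the field with `q` elements, with
characteristic polynomials `f i`, there are finitely many products `D t` of divisor classes on `A` such that for **all**
schemes `U` over the field with `Q` elements the following holds. Let `T` be the motivic cohomology of `A × U` relative to
`U`, on which the Chow ring and the correspondences of `A` act, such that Frobenius acts on the group of bidegree
`(i, j)` as multiplication by `Q ^ j` and satisfies on the groups of `U` a polynomial whose roots have rank at most `r`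
modulo `E`: then the Kunneth formula holds, and for every bidegree `(i, j)` the regulator of `A × U` is injective if and
only if the regulators of `U` in the bidegrees `(i - 2 k, j - k)`, `0 ≤ k ≤ dim A`, are.

We show that the exceptions to this property are rare **everywhere**: for all `q` and all `B ≥ 2` they are a proportion
`O (B ^ (-1 / 3) log B)` of the points in every parallelepiped, with sides at least `B`, of every translate of a lattice of
finite index, where the index may have up to `B ^ (1 / 4)` prime divisors and the basis is arbitrary. The constant does
not depend on `q`. For the bounding box of all Weil polynomials this gives the proportion `q ^ (-1 / 6) log q`; but `B` can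
be much smaller than `q`, for instance `B = log q`, or a large constant. Diagonal matrices give the residue classes modulo
all numbers, in particular modulo the powers of the characteristic (Newton strata; the condition `q ∤ tr (h i) ^ 2`
forces the first slope to be smaller than `1 / 2`); the matrix of the coordinates given by the first coefficients of the
`f i` is unimodular. Moreover there is a constant `R` such that for all `q ≥ R` every point of `ℤ ^ n` has a good point at
distance at most `R`.

The proof is the sieve of helper521 and helper484 with the primes that split completely in the Galois closure of `E`,
pulled back by the matrix `A` (helper578, `N578/LB`), and the theorem `Y156.L.beilinson_of_good` of the starting library.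
-/

set_option autoImplicit false

namespace Pool.Agent.Results.MP_b52861_ag.LatticeBoxes

open Polynomial Pool.Agent.W484.TB Pool.Agent.N578.LB

/-- For positive integers `g i > r` and a number field `E`, the property `BeilinsonForRankOver E q r f` of families `f` of
Weil `q`-polynomials of degrees `2 g i` holds `InAllLattices`: for a constant `C`, all prime powers `q`, all `B ≥ 2`, in
every parallelepiped with sides at least `B` of every translate of a lattice whose index has at most `B ^ (1 / 4)` prime
divisors the exceptions are a proportion `≤ C B ^ (-1 / 3) log B`; and for a constant `R` and `q ≥ R` every point is at
distance at most `R` from a good one. -/
theorem result {I : Type} [Fintype I] [DecidableEq I] (g : I → ℕ) (r : ℕ) (hr : ∀ i, r < g i)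
    (E : IntermediateField ℚ ℂ) [FiniteDimensional ℚ E] :
    InAllLattices g (fun q f => Pool.Agent.Y156.L.BeilinsonForRankOver E q r f) :=
  inAllLattices (splitPrimes E) (dense_splitPrimes E) g (fun i => (Nat.zero_le r).trans_lt (hr i)) _
    fun _ hq x hx => Pool.Agent.Y156.L.beilinson_of_good g E hq.one_lt r hr x hx

end Pool.Agent.Results.MP_b52861_ag.LatticeBoxes
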