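import Pool.Agent.N64.AF.M2

/-!
# Beilinson's conjecture for varieties which satisfy the Tate conjecture: a dichotomy

Let `X` be a smooth projective scheme over a finite field `𝔽` with `q` elements which satisfies the
Tate conjecture (all Galois-invariant classes in `H^{2j}(X̄, ℚ_ℓ(j))` are combinations of classes of
cycles, and `q^j` is a semisimple eigenvalue of Frobenius on `H^{2j}`), for example a K3 surface,
a cubic fourfold or an elliptic modular surface, or a power of one of them if the Tate conjecture
is known for it. For `s ≥ 0` let `F(Y)` be the kernel of the
sum over all `j` of the maps

  `c_Y : CH^j(Y, s) ⊗ ℚ ⟶ H^{2j-s}(Y, ℚ_ℓ(j))`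

(for `s ≥ 1` and smooth projective `Y` this is all of `⊕_j CH^j(Y, s)_ℚ = K_s(Y)_ℚ`, since the Galois
invariants vanish by the Weil conjectures; for `s = 0` it is the group of the homologically trivial
cycles). The conjecture predicts `F(Y) = 0` for all smooth projective `Y`. It is known for products of
elliptic curves and some other varieties of abelian type (Soulé, Kahn), and open for the varieties
above in general.

Theorem. Let `P = X ^ m` be a power of a smooth projective `X` such that the Tate conjecture holds for
`P` (nothing is assumed for the other powers). Then `F(P) = 0`, the conjecture for `P`, or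

* `dim F(P ^ (a + 1)) ≥ (a + 1) rank Num^*(P ^ a)` for ALL `a ≥ 0`, and
* `dim F(X ^ n) / rank Num^*(X ^ n)` tends to infinity for `n → ∞`.

So for a K3 surface `X` over a finite field and for each `s ≥ 1` either `K_s(X)` is torsion or the
dimension of `K_s(X ^ n)_ℚ` grows faster than all multiples of `rank Num^*(X ^ n)`. In other words, one
inequality `dim F(P ^ (a + 1)) < (a + 1) rank Num^*(P ^ a)` for one `a` proves the conjecture for
`P`; or a bound `dim F(X ^ n) ≤ c rank Num^*(X ^ n)` for infinitely many `n` and any constant `c`
proves it for all powers of `X` which satisfy the Tate conjecture. Geisser and Kahn deduce the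
vanishing from the Tate conjecture together with the equality of rational and numerical
equivalence or with Kimura finite-dimensionality (for all products involved); here the second
assumption is replaced by a growth condition on the groups themselves.

The setting. `C` is the category of the smooth projective schemes over `𝔽` with the groups
`CH^*(X × Y)_ℚ` (all codimensions) as morphisms; it is a rigid symmetric monoidal category, `T = h(X)`
is self-dual, `R` is the `ℓ`-adic cohomology with coefficients extended to an algebraic closure of
`ℚ_ℓ`, `C⁺` is known for all `X` (Katz and Messing), `φ` is the graph of the Frobenius of `P`, which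
acts on `CH^j(P, s)_ℚ` as `q^j`, and `π = ∏ (t - q^j)`, so that `π(φ)` acts as zero on `F(P)`;
`F` vanishes on the unit object `h(Spec 𝔽)` (Quillen). The condition `TateCond` says that each
correspondence `x` from `P` to `P` which is killed numerically by a power of `π(φ)` is numerically
equivalent to a sum of products `α × β`, as it holds under the Tate conjecture: the cohomology
of the image of `x` consists of Tate classes.

Idea of the proof. Let `μ = π^j ρ`, with `π` and `ρ` coprime, annihilate `φ` numerically. The Tate
condition makes the projector to the generalised eigenspaces of `π` equal to a sum of products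
`α × β`, which acts as zero on `F(P)` because `F(Spec 𝔽) = 0`, and the rest of the diagonal acts
invertibly on one side and as zero on the other. So there is a correspondence numerically equivalent
to the diagonal of `P` which acts as zero on `F(P)`. If `z ≠ 0` is an element of `F(P)` then the elements
obtained by inserting `z` in one of the `a + 1` factors of `P ^ (a + 1)` and classes from a basis
of `Num^*(P ^ a)` in the others are linearly independent. For the second statement
the law of the dimensions of values of additive functors shows that otherwise all numerically
trivial correspondences act nilpotently.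

Authors: helper64 (plan, law), helper255 (Tate dichotomy), and, for the lemmas of the law,
helper136, helper327, helper199, helper767, helper8, helper364, helper216, helper73, helper833,
helper140, helper494, helper505, helper301, helper441, helper591, helper712.
-/

set_option autoImplicit false

open CategoryTheory MonoidalCategory Module Filter Topology
open Pool.Agent.Y112.SR Pool.Agent.Y112.KD Pool.Agent.N64.AF
open scoped ENNReal

namespace Pool.Agent.Results.MP_b52861_ag.TateDichotomy

universe v u w t x

/-- The dichotomy for a power of `X` which satisfies the Tate conjecture. -/
theorem result {C : Type u} [Category.{v} C] [Preadditive C] [MonoidalCategory C]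
    [MonoidalPreadditive C] [SymmetricCategory C] [RightRigidCategory C]
    {Λ : Type t} [Field Λ] [CharZero Λ] [Linear Λ C] [MonoidalLinear Λ C]
    {K : Type w} [Field K] [IsAlgClosed K] [Algebra Λ K] (R : SuperRealisation C K)
    (T : C) [ExactPairing T T] (h : IsPow Λ R T) (m : ℕ) (φ : End (tp T m)) (π : Polynomial Λ)
    (hTate : TateCond φ π) (F : C ⥤ ModuleCat.{x} Λ) [F.Additive] [F.Linear Λ]
    (hF : Subsingleton (F.obj (𝟙_ C)))
    (hφ : F.map (Polynomial.aeval φ π : End (tp T m)) = 0) :
    Subsingleton (F.obj (tp T m)) ∨
    ((∀ a : ℕ, (((a + 1) * numRank Λ (tp (tp T m) a) : ℕ) : ℕ∞) ≤
        dimE Λ (F.obj (tp (tp T m) (a + 1)))) ∧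
      RatioTo Λ T (fun n => dimE Λ (F.obj (tp T n))) ⊤) :=
  tate_power h m φ π hTate F hF hφ

end Pool.Agent.Results.MP_b52861_ag.TateDichotomy
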